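import Pool.Agent.H.MP_0a1b52_lc.Lines
import Pool.Agent.H.MP_8a52c3_lc.Tuples

/-!
# The clique function
-/

set_option autoImplicit false

open Finset

namespace Pool.Agent.H.MP_0a1b52_lc

open Pool.Agent.H.MP_8a52c3_lc

/-- choice of the prime -/
theorem exists_prime {N R l : ℕ} (hl : 64 ≤ l) (hN2 : 324 * l ^ 20 ≤ N)
    (hR2 : 2 * R ≤ N) (hR1 : 8 * l ^ 3 + 1 ≤ R) :
    ∃ p : ℕ, p.Prime ∧ (8 * l ^ 3 + 1) * l ^ 7 ≤ p ∧
      (8 * l ^ 3 + 1) * l ^ 7 * p + (R - (8 * l ^ 3 + 1)) ≤ N ∧ p ≤ N ∧ N ≤ 36 * l ^ 10 * p := by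
  set n0 := (8 * l ^ 3 + 1) * l ^ 7 with hn0
  have h1 : n0 ≤ 9 * l ^ 10 := by
    have e : 9 * l ^ 10 = (9 * l ^ 3) * l ^ 7 := by ring
    rw [hn0, e]
    apply Nat.mul_le_mul_right
    have : 1 ≤ l ^ 3 := Nat.one_le_pow _ _ (by omega)
    omega
  have hn0pos : 0 < n0 := by positivity
  set m := R - (8 * l ^ 3 + 1) with hm
  set M := (N - m) / n0 with hM
  have h2 : n0 * M ≤ N - m := Nat.mul_div_le _ _
  have h3 : N - m < n0 * (M + 1) := by
    have := Nat.lt_mul_div_succ (N - m) hn0pos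
    exact this
  have h4 : 2 * n0 ≤ M := by
    rw [hM, Nat.le_div_iff_mul_le hn0pos]
    have h5 : 2 * n0 * n0 ≤ 162 * l ^ 20 := by
      calc 2 * n0 * n0 ≤ 2 * (9 * l ^ 10) * (9 * l ^ 10) :=
            Nat.mul_le_mul (Nat.mul_le_mul_left _ h1) h1
        _ = 162 * l ^ 20 := by ring
    omega
  obtain ⟨p, hp, hp1, hp2⟩ := Nat.exists_prime_lt_and_le_two_mul (M / 2) (by omega)
  have hpM : p ≤ M := by omega
  refine ⟨p, hp, by omega, ?_, ?_, ?_⟩
  · have : n0 * p ≤ n0 * M := Nat.mul_le_mul_left _ hpM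
    omega
  · have : 1 * M ≤ n0 * M := Nat.mul_le_mul_right _ hn0pos
    omega
  · have h5 : M + 1 ≤ 2 * p := by omega
    have h6 : n0 * (M + 1) ≤ 9 * l ^ 10 * (2 * p) := Nat.mul_le_mul h1 h5
    have h7 : 9 * l ^ 10 * (2 * p) = 18 * l ^ 10 * p := by ring
    have h8 : 36 * l ^ 10 * p = 2 * (18 * l ^ 10 * p) := by ring
    omega

theorem clique_main {N R l s : ℕ} (hl : 64 ≤ l) (hN1 : 4 * N ≤ 2 ^ l)
    (hN2 : 324 * l ^ 20 ≤ N) (hR1 : 8 * l ^ 3 + 1 ≤ R) (hR2 : 2 * R ≤ N)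
    (C : Circuit (Pairs N) s) (hC : ∀ G, C.eval G = true ↔ BigClique R G) :
    ∃ K : ℕ, K ≤ N ^ 2 ∧ N ^ 2 ≤ 1296 * l ^ 20 * K ∧
      (C.size + K + 1 ≤ l ^ l → (K : ℝ) / 4 + 1 ≤ 2 ^ C.otherFan ∧
        (K : ℝ) / 4 + 1 ≤ (1 + (C.otherFan : ℝ) / C.otherDepth) ^ C.otherDepth) ∧
      (K * (C.size + 1) ≤ l ^ l → K ≤ 4 * (2 ^ C.numOther * (C.otherFan + 1) + 1)) := by
  classical
  obtain ⟨p, hp, hp1, hp2, hp3, hp4⟩ := exists_prime hl hN2 hR2 hR1
  have : Fact p.Prime := ⟨hp⟩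
  have hk : 8 * l ^ 3 + 1 = 2 * (4 * l ^ 2) * l + 1 := by ring
  set k := 8 * l ^ 3 + 1 with hkdef
  set m := R - k with hm
  have hkm : k + m = R := by omega
  have hk2 : 2 ≤ k := by
    have : 1 ≤ l ^ 3 := Nat.one_le_pow _ _ (by omega)
    omega
  have hN' : k * l ^ 7 * p + m ≤ N := hp2
  have hPt : Fintype.card (Pt k (l ^ 7) p) = k * l ^ 7 * p := by
    rw [Fintype.card_prod, Fintype.card_prod, Fintype.card_fin, Fintype.card_fin, ZMod.card]
  have hbad := bad_count (K := p * p) (q := 4 * l ^ 2) (Pt := Pt k (l ^ 7) p)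
    (X := Fin k × Fin (l ^ 7)) (Nat.mul_pos (by norm_num) (by positivity)) Prod.fst ln
    (fun v w w' h1 h2 h3 h4 => ln_three hp1 v w w' h1 h2 h3 h4) l (by
      rw [hPt]
      omega)
  rw [← hk] at hbad
  have hZ : ∀ j (u : Fin (p * p) → Fin k × Fin (l ^ 7) → Fin (4 * l ^ 2)),
      u ∉ badSet (Pt := Pt k (l ^ 7) p) Prod.fst ln k →
      C.eval (chainIn (lineRole (N := N) k (l ^ 7) p m) j u) = false := by
    intro j u hu
    cases hv : C.eval (chainIn (lineRole (N := N) k (l ^ 7) p m) j u) with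
    | false => rfl
    | true =>
      have h1 := (hC _).1 hv
      rw [← hkm] at h1
      exact absurd (chain_big hp1 hk2 m hN' j u h1) hu
  have hY : ∀ j (u : Fin (p * p) → Fin k × Fin (l ^ 7) → Fin (4 * l ^ 2)) a,
      C.eval (branchIn (lineRole (N := N) k (l ^ 7) p m) j u a) = true := by
    intro j u a
    rw [hC, ← hkm]
    exact branch_big hp1 m hN' j u a
  refine ⟨p * p, ?_, ?_, ?_, ?_⟩
  · rw [sq]
    exact Nat.mul_le_mul hp3 hp3
  · calc N ^ 2 = N * N := sq N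
      _ ≤ (36 * l ^ 10 * p) * (36 * l ^ 10 * p) := Nat.mul_le_mul hp4 hp4
      _ = 1296 * l ^ 20 * (p * p) := by ring
  · intro hsize
    exact roles_main_bad C hl le_rfl (le_refl (4 * l ^ 2))
      (lineRole (N := N) k (l ^ 7) p m) (fun w j x y h => lineRole_ne m w j x y h) hsize _ hbad
      hZ hY
  · intro hsize
    exact others_bound_bad C hl le_rfl (le_refl (4 * l ^ 2))
      (lineRole (N := N) k (l ^ 7) p m) (fun w j x y h => lineRole_ne m w j x y h) hsize _ hbad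
      hZ hY

/-- logarithmic form -/
theorem clique_log {N l K : ℕ} (hl : 64 ≤ l) (hN : 2 ≤ N) (hK : N ^ 2 ≤ 1296 * l ^ 20 * K)
    {B : ℝ} (hB : (K : ℝ) / 8 ≤ B) :
    Real.logb 2 (Fintype.card (Pairs N)) - 20 * Real.logb 2 l - 13 ≤ Real.logb 2 B := by
  have hNR : (2 : ℝ) ≤ N := by exact_mod_cast hN
  have hlR : (64 : ℝ) ≤ l := by exact_mod_cast hl
  have hl0 : (0 : ℝ) < l := by linarith
  have h1 : (Fintype.card (Pairs N) : ℝ) = N * (N - 1) / 2 := by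
    rw [card_pairs, Nat.cast_choose_two]
  have hpos : (0 : ℝ) < N * (N - 1) / 2 := by
    have : (0 : ℝ) < N - 1 := by linarith
    positivity
  have h2 : Real.logb 2 (Fintype.card (Pairs N)) - 20 * Real.logb 2 l - 13 =
      Real.logb 2 ((N * (N - 1) / 2) / (l ^ 20 * 2 ^ 13)) := by
    rw [h1, Real.logb_div hpos.ne' (by positivity), Real.logb_mul (by positivity) (by positivity),
      Real.logb_pow, Real.logb_pow, Real.logb_self_eq_one (by norm_num)]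
    push_cast
    ring
  rw [h2]
  apply Real.logb_le_logb_of_le (by norm_num) (by positivity)
  refine le_trans ?_ hB
  have h3 : (N : ℝ) ^ 2 ≤ 1296 * l ^ 20 * K := by exact_mod_cast hK
  rw [div_le_iff₀ (by positivity)]
  have h4 : (N : ℝ) * (N - 1) / 2 ≤ N ^ 2 / 2 := by nlinarith
  have h5 : (K : ℝ) / 8 * (l ^ 20 * 2 ^ 13) = 1024 * l ^ 20 * K := by ring
  have h6 : (0 : ℝ) ≤ l ^ 20 * K := by positivity
  nlinarith

end Pool.Agent.H.MP_0a1b52_lc
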