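import Pool.Agent.H.MP_8a52c3_lc.Graphs

/-!
# The clique function: the definition used in the statements
-/

set_option autoImplicit false

namespace Pool.Agent.H.MP_0a1b52_lc

open Pool.Agent.H.MP_8a52c3_lc

/-- the graph with edge indicator `G` contains a clique with at least `r` vertices -/
def BigClique {N : ℕ} (r : ℕ) (G : Pairs N → Bool) : Prop :=
  ∃ c : Finset (Fin N), r ≤ c.card ∧ ∀ w : Pairs N, w.1.1 ∈ c → w.1.2 ∈ c → G w = true

end Pool.Agent.H.MP_0a1b52_lc
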