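import Pool.Agent.H.MP_8a52c3_lc.Chain2

/-!
# Random colourings of many lines contain no large clique
-/

set_option autoImplicit false

open Finset

namespace Pool.Agent.H.MP_0a1b52_lc

section

variable {K q : ℕ} {X Pt : Type} [Fintype X] [DecidableEq X]

/-- replace the colours of the point `x` on all lines -/
def colUpdate (u : Fin K → X → Fin q) (x : X) (d : Fin K → Fin q) : Fin K → X → Fin q :=
  fun L => Function.update (u L) x (d L)

/-- averaging over the colours of one point -/
theorem sum_colUpdate (x : X) (g : (Fin K → X → Fin q) → ℕ) :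
    ∑ u : Fin K → X → Fin q, ∑ d : Fin K → Fin q, g (colUpdate u x d) =
      Fintype.card (Fin K → Fin q) * ∑ u : Fin K → X → Fin q, g u := by
  have h1 : ∑ u : Fin K → X → Fin q, ∑ d : Fin K → Fin q, g (colUpdate u x d) =
      ∑ r : (Fin K → X → Fin q) × (Fin K → Fin q), g (colUpdate r.1 x r.2) := by
    rw [Fintype.sum_prod_type]
  have h2 : ∑ r : (Fin K → X → Fin q) × (Fin K → Fin q), g (colUpdate r.1 x r.2) =
      ∑ r : (Fin K → X → Fin q) × (Fin K → Fin q), g r.1 := by
    refine Finset.sum_bij' (fun r _ => (colUpdate r.1 x r.2, fun L => r.1 L x))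
      (fun r _ => (colUpdate r.1 x r.2, fun L => r.1 L x)) (fun _ _ => Finset.mem_univ _)
      (fun _ _ => Finset.mem_univ _) ?_ ?_ ?_
    · intro r _
      ext1
      · funext L
        simp [colUpdate]
      · funext L
        simp [colUpdate]
    · intro r _
      ext1
      · funext L
        simp [colUpdate]
      · funext L
        simp [colUpdate]
    · intro r _
      rfl
  rw [h1, h2, Fintype.sum_prod_type]
  have h3 : ∀ u : Fin K → X → Fin q, ∑ _d : Fin K → Fin q, g u =
      Fintype.card (Fin K → Fin q) * g u := by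
    intro u
    rw [Finset.sum_const, smul_eq_mul, Finset.card_univ]
  rw [Finset.sum_congr rfl (fun u _ => h3 u), ← Finset.mul_sum]

/-- all points of `A` are joined -/
def Clq (col : Pt → X) (ln : Pt → Pt → Fin K) (u : Fin K → X → Fin q) (A : Finset Pt) : Prop :=
  ∀ v ∈ A, ∀ w ∈ A, v ≠ w → col v ≠ col w ∧ u (ln v w) (col v) ≠ u (ln v w) (col w)

/-- the estimate for one line -/
theorem line_factor (hq : 1 ≤ q) (m : ℕ) (hm : m ≤ q) :
    ((q - m : ℕ) : ℝ) ≤ q * (1 - 1 / (q : ℝ)) ^ m := by
  have hqR : (1 : ℝ) ≤ q := by exact_mod_cast hq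
  have hq0 : (0 : ℝ) < q := by linarith
  rw [Nat.cast_sub hm]
  have h1 : (-2 : ℝ) ≤ -(1 / (q : ℝ)) := by
    have : 1 / (q : ℝ) ≤ 1 := by rw [div_le_one hq0]; exact hqR
    linarith
  have h2 := one_add_mul_le_pow h1 m
  have h3 : (q : ℝ) - m = q * (1 + m * -(1 / (q : ℝ))) := by
    field_simp
    ring
  rw [h3]
  have h4 : (1 : ℝ) - 1 / (q : ℝ) = 1 + -(1 / (q : ℝ)) := by ring
  rw [h4]
  exact mul_le_mul_of_nonneg_left h2 hq0.le

open Classical in
/-- the number of colourings of the lines for which `A` is a clique -/
theorem clq_count (hq : 1 ≤ q) (col : Pt → X) (ln : Pt → Pt → Fin K)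
    (hln : ∀ v w w', col v ≠ col w → col v ≠ col w' → col w ≠ col w' → ln v w = ln v w' →
      ln w w' = ln v w) (A : Finset Pt) :
    ((univ.filter (fun u : Fin K → X → Fin q => Clq col ln u A)).card : ℝ) ≤
      Fintype.card (Fin K → X → Fin q) * (1 - 1 / (q : ℝ)) ^ (A.card.choose 2) := by
  have hqR : (1 : ℝ) ≤ q := by exact_mod_cast hq
  have hq0 : (0 : ℝ) < q := by linarith
  have hρ0 : (0 : ℝ) ≤ 1 - 1 / (q : ℝ) := by
    have : 1 / (q : ℝ) ≤ 1 := by rw [div_le_one hq0]; exact hqR
    linarith
  induction A using Finset.induction_on with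
  | empty =>
    rw [Finset.card_empty]
    simp only [Nat.choose_zero_succ, pow_zero, mul_one]
    exact_mod_cast Finset.card_le_univ _
  | insert v A hv ih =>
    by_cases hcol : ∀ w ∈ A, col v ≠ col w
    · -- resample the colours of `col v`
      set D := Fintype.card (Fin K → Fin q) with hD
      have hDR : (D : ℝ) = (q : ℝ) ^ K := by simp [hD]
      have hD0 : (0 : ℝ) < D := by rw [hDR]; positivity
      -- the colourings of the new column that are good
      have key : ∀ u : Fin K → X → Fin q, Clq col ln u A →
          ((univ.filter (fun d : Fin K → Fin q =>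
            ∀ w ∈ A, d (ln v w) ≠ u (ln v w) (col w))).card : ℝ) ≤
          D * (1 - 1 / (q : ℝ)) ^ A.card := by
        intro u hu
        let F : Fin K → Finset (Fin q) := fun L =>
          (A.filter (fun w => ln v w = L)).image (fun w => u L (col w))
        have hF : ∀ L, (F L).card = (A.filter (fun w => ln v w = L)).card := by
          intro L
          apply Finset.card_image_of_injOn
          intro w hw w' hw' heq
          rw [Finset.mem_coe, Finset.mem_filter] at hw hw'
          by_contra hne
          have h1 := hu w hw.1 w' hw'.1 hne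
          have h2 := hln v w w' (hcol w hw.1) (hcol w' hw'.1) h1.1 (hw.2.trans hw'.2.symm)
          rw [h2, hw.2] at h1
          exact h1.2 heq
        have hset : (univ.filter (fun d : Fin K → Fin q =>
            ∀ w ∈ A, d (ln v w) ≠ u (ln v w) (col w))) =
            Fintype.piFinset (fun L => (F L)ᶜ) := by
          ext d
          rw [Finset.mem_filter, Fintype.mem_piFinset]
          constructor
          · rintro ⟨-, h⟩ L
            rw [Finset.mem_compl]
            intro hmem
            obtain ⟨w, hw, hwd⟩ := Finset.mem_image.1 hmem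
            rw [Finset.mem_filter] at hw
            have := h w hw.1
            rw [hw.2] at this
            exact this hwd.symm
          · intro h
            refine ⟨Finset.mem_univ _, fun w hw heq => ?_⟩
            have := h (ln v w)
            rw [Finset.mem_compl] at this
            exact this (Finset.mem_image.2 ⟨w, Finset.mem_filter.2 ⟨hw, rfl⟩, heq.symm⟩)
        rw [hset, Fintype.card_piFinset, Nat.cast_prod]
        have h3 : ∀ L : Fin K, (((F L)ᶜ).card : ℝ) ≤
            q * (1 - 1 / (q : ℝ)) ^ (A.filter (fun w => ln v w = L)).card := by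
          intro L
          rw [Finset.card_compl, Fintype.card_fin, ← hF L]
          exact line_factor hq _ (by
            have := Finset.card_le_univ (F L)
            rwa [Fintype.card_fin] at this)
        refine (Finset.prod_le_prod (fun L _ => Nat.cast_nonneg _) (fun L _ => h3 L)).trans ?_
        rw [Finset.prod_mul_distrib, Finset.prod_const, Finset.card_univ, Fintype.card_fin,
          Finset.prod_pow_eq_pow_sum, hDR]
        refine le_of_eq ?_
        congr 2
        exact (Finset.card_eq_sum_card_fiberwise (fun w _ => Finset.mem_univ (ln v w))).symm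
      have h1 := sum_colUpdate (col v) (fun u : Fin K → X → Fin q =>
        if Clq col ln u (insert v A) then 1 else 0)
      have h2 : ∀ u : Fin K → X → Fin q, ∀ d : Fin K → Fin q,
          Clq col ln (colUpdate u (col v) d) (insert v A) →
          Clq col ln u A ∧ ∀ w ∈ A, d (ln v w) ≠ u (ln v w) (col w) := by
        intro u d h
        constructor
        · intro w hw w' hw' hne
          have := h w (Finset.mem_insert_of_mem hw) w' (Finset.mem_insert_of_mem hw') hne
          refine ⟨this.1, ?_⟩
          have h3 := this.2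
          simp only [colUpdate] at h3
          rw [Function.update_of_ne (hcol w hw).symm, Function.update_of_ne (hcol w' hw').symm]
            at h3
          exact h3
        · intro w hw
          have hne : v ≠ w := fun h => hv (h ▸ hw)
          have := (h v (Finset.mem_insert_self _ _) w (Finset.mem_insert_of_mem hw) hne).2
          simp only [colUpdate] at this
          rw [Function.update_self, Function.update_of_ne (hcol w hw).symm] at this
          exact this
      have h4 : (∑ u : Fin K → X → Fin q, ∑ d : Fin K → Fin q,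
          (if Clq col ln (colUpdate u (col v) d) (insert v A) then 1 else 0) : ℕ) ≤
          ∑ u ∈ univ.filter (fun u : Fin K → X → Fin q => Clq col ln u A),
            (univ.filter (fun d : Fin K → Fin q =>
              ∀ w ∈ A, d (ln v w) ≠ u (ln v w) (col w))).card := by
        rw [Finset.sum_filter]
        apply Finset.sum_le_sum
        intro u _
        by_cases hu : Clq col ln u A
        · rw [if_pos hu, Finset.card_filter]
          apply Finset.sum_le_sum
          intro d _
          by_cases hd : Clq col ln (colUpdate u (col v) d) (insert v A)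
          · rw [if_pos hd, if_pos (h2 u d hd).2]
          · rw [if_neg hd]; exact Nat.zero_le _
        · rw [if_neg hu]
          refine le_of_eq (Finset.sum_eq_zero fun d _ => ?_)
          rw [if_neg (fun hd => hu (h2 u d hd).1)]
      rw [h1] at h4
      have h5 : (∑ u : Fin K → X → Fin q, (if Clq col ln u (insert v A) then 1 else 0) : ℕ) =
          (univ.filter (fun u : Fin K → X → Fin q => Clq col ln u (insert v A))).card := by
        rw [Finset.card_filter]
      rw [h5] at h4
      have h6 : (D : ℝ) * (univ.filter (fun u : Fin K → X → Fin q =>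
          Clq col ln u (insert v A))).card ≤
          ∑ u ∈ univ.filter (fun u : Fin K → X → Fin q => Clq col ln u A),
            ((univ.filter (fun d : Fin K → Fin q =>
              ∀ w ∈ A, d (ln v w) ≠ u (ln v w) (col w))).card : ℝ) := by
        exact_mod_cast h4
      have h7 : ∑ u ∈ univ.filter (fun u : Fin K → X → Fin q => Clq col ln u A),
            ((univ.filter (fun d : Fin K → Fin q =>
              ∀ w ∈ A, d (ln v w) ≠ u (ln v w) (col w))).card : ℝ) ≤
          (univ.filter (fun u : Fin K → X → Fin q => Clq col ln u A)).card *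
            (D * (1 - 1 / (q : ℝ)) ^ A.card) := by
        calc _ ≤ ∑ _u ∈ univ.filter (fun u : Fin K → X → Fin q => Clq col ln u A),
              (D * (1 - 1 / (q : ℝ)) ^ A.card) :=
              Finset.sum_le_sum (fun u hu => key u (Finset.mem_filter.1 hu).2)
          _ = _ := by rw [Finset.sum_const, nsmul_eq_mul]
      have h8 : (D : ℝ) * (univ.filter (fun u : Fin K → X → Fin q =>
          Clq col ln u (insert v A))).card ≤
          D * (Fintype.card (Fin K → X → Fin q) * (1 - 1 / (q : ℝ)) ^ ((insert v A).card.choose 2))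
          := by
        refine (h6.trans h7).trans ?_
        rw [Finset.card_insert_of_notMem hv, Nat.choose_succ_succ' A.card 1, Nat.choose_one_right,
          pow_add]
        have h9 := mul_le_mul_of_nonneg_right ih
          (mul_nonneg hD0.le (pow_nonneg hρ0 A.card))
        calc _ ≤ _ := h9
          _ = _ := by ring
      exact le_of_mul_le_mul_left h8 hD0
    · push Not at hcol
      obtain ⟨w, hw, hwv⟩ := hcol
      have : (univ.filter (fun u : Fin K → X → Fin q => Clq col ln u (insert v A))) = ∅ := by
        rw [Finset.filter_eq_empty_iff]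
        intro u _ h
        have hne : v ≠ w := fun h => hv (h ▸ hw)
        exact (h v (Finset.mem_insert_self _ _) w (Finset.mem_insert_of_mem hw) hne).1 hwv
      rw [this, Finset.card_empty, Nat.cast_zero]
      positivity

open Classical in
/-- the exceptional colourings -/
noncomputable def badSet [Fintype Pt] (col : Pt → X) (ln : Pt → Pt → Fin K) (k : ℕ) :
    Finset (Fin K → X → Fin q) :=
  univ.filter (fun u => ∃ A : Finset Pt, A.card = k ∧ Clq col ln u A)

theorem pow_half (hq : 1 ≤ q) : (1 - 1 / (q : ℝ)) ^ q ≤ 1 / 2 := by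
  have hqR : (1 : ℝ) ≤ q := by exact_mod_cast hq
  have h1 := Real.one_sub_div_pow_le_exp_neg hqR
  have h2 := Real.add_one_le_exp (1 : ℝ)
  refine h1.trans ?_
  rw [Real.exp_neg, inv_le_comm₀ (Real.exp_pos 1) (by norm_num)]
  linarith

theorem bad_count [Fintype Pt] (hq : 1 ≤ q) (col : Pt → X) (ln : Pt → Pt → Fin K)
    (hln : ∀ v w w', col v ≠ col w → col v ≠ col w' → col w ≠ col w' → ln v w = ln v w' →
      ln w w' = ln v w) (w : ℕ) (hw : 4 * Fintype.card Pt ≤ 2 ^ w) :
    4 * (badSet (q := q) col ln (2 * q * w + 1)).card ≤ Fintype.card (Fin K → X → Fin q) := by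
  classical
  set k := 2 * q * w + 1 with hk
  set N := Fintype.card Pt with hN
  have hqR : (1 : ℝ) ≤ q := by exact_mod_cast hq
  have hq0 : (0 : ℝ) < q := by linarith
  have hρ0 : (0 : ℝ) ≤ 1 - 1 / (q : ℝ) := by
    have : 1 / (q : ℝ) ≤ 1 := by rw [div_le_one hq0]; exact hqR
    linarith
  have h1 : badSet (q := q) col ln k ⊆ (Finset.powersetCard k (univ : Finset Pt)).biUnion
      (fun A => univ.filter (fun u : Fin K → X → Fin q => Clq col ln u A)) := by
    intro u hu
    obtain ⟨A, hA, hclq⟩ := (Finset.mem_filter.1 hu).2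
    exact Finset.mem_biUnion.2 ⟨A, Finset.mem_powersetCard.2 ⟨Finset.subset_univ _, hA⟩,
      Finset.mem_filter.2 ⟨Finset.mem_univ _, hclq⟩⟩
  have h2 : ((badSet (q := q) col ln k).card : ℝ) ≤
      (N : ℝ) ^ k * (Fintype.card (Fin K → X → Fin q) * (1 - 1 / (q : ℝ)) ^ (k.choose 2)) := by
    have h3 : ((badSet (q := q) col ln k).card : ℝ) ≤
        ∑ A ∈ Finset.powersetCard k (univ : Finset Pt),
          ((univ.filter (fun u : Fin K → X → Fin q => Clq col ln u A)).card : ℝ) := by
      exact_mod_cast (Finset.card_le_card h1).trans Finset.card_biUnion_le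
    refine h3.trans ?_
    calc _ ≤ ∑ _A ∈ Finset.powersetCard k (univ : Finset Pt),
          (Fintype.card (Fin K → X → Fin q) * (1 - 1 / (q : ℝ)) ^ (k.choose 2) : ℝ) := by
          apply Finset.sum_le_sum
          intro A hA
          have := clq_count hq col ln hln A
          rw [(Finset.mem_powersetCard.1 hA).2] at this
          exact this
      _ = ((Finset.powersetCard k (univ : Finset Pt)).card : ℝ) *
          (Fintype.card (Fin K → X → Fin q) * (1 - 1 / (q : ℝ)) ^ (k.choose 2)) := by
          rw [Finset.sum_const, nsmul_eq_mul]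
      _ ≤ _ := by
          apply mul_le_mul_of_nonneg_right
          · rw [Finset.card_powersetCard, Finset.card_univ, ← hN]
            exact_mod_cast Nat.choose_le_pow N k
          · exact mul_nonneg (Nat.cast_nonneg _) (pow_nonneg hρ0 _)
  have hchoose : k.choose 2 = q * (w * k) := by
    rw [Nat.choose_two_right, hk]
    have : (2 * q * w + 1) * (2 * q * w + 1 - 1) = q * (w * (2 * q * w + 1)) * 2 := by
      rw [Nat.add_sub_cancel]; ring
    rw [this, Nat.mul_div_cancel _ (by norm_num)]
  have h5 : (1 - 1 / (q : ℝ)) ^ (k.choose 2) ≤ (1 / 2) ^ (w * k) := by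
    rw [hchoose, pow_mul]
    exact pow_le_pow_left₀ (pow_nonneg hρ0 _) (pow_half hq) _
  have h6 : (N : ℝ) ^ k * (1 / 2) ^ (w * k) ≤ 1 / 4 := by
    rw [pow_mul, ← mul_pow]
    have h7 : (N : ℝ) * (1 / 2) ^ w ≤ 1 / 4 := by
      have h8 : (4 : ℝ) * N ≤ 2 ^ w := by exact_mod_cast hw
      rw [one_div_pow, mul_one_div, div_le_iff₀ (by positivity)]
      linarith
    have h9 : (0 : ℝ) ≤ (N : ℝ) * (1 / 2) ^ w := by positivity
    calc ((N : ℝ) * (1 / 2) ^ w) ^ k ≤ ((N : ℝ) * (1 / 2) ^ w) ^ 1 :=
          pow_le_pow_of_le_one h9 (by linarith) (by omega)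
      _ ≤ 1 / 4 := by rw [pow_one]; exact h7
  have h10 : (4 : ℝ) * (badSet (q := q) col ln k).card ≤ Fintype.card (Fin K → X → Fin q) := by
    set Ω : ℝ := (Fintype.card (Fin K → X → Fin q) : ℝ) with hΩ
    have hΩ0 : 0 ≤ Ω := Nat.cast_nonneg _
    have hNk : (0 : ℝ) ≤ (N : ℝ) ^ k := by positivity
    calc (4 : ℝ) * (badSet (q := q) col ln k).card
        ≤ 4 * ((N : ℝ) ^ k * (Ω * (1 - 1 / (q : ℝ)) ^ (k.choose 2))) := by linarith
      _ ≤ 4 * ((N : ℝ) ^ k * (Ω * (1 / 2) ^ (w * k))) := by
          have := mul_le_mul_of_nonneg_left (mul_le_mul_of_nonneg_left h5 hΩ0) hNk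
          linarith
      _ = 4 * Ω * ((N : ℝ) ^ k * (1 / 2) ^ (w * k)) := by ring
      _ ≤ 4 * Ω * (1 / 4) := mul_le_mul_of_nonneg_left h6 (by linarith)
      _ = Ω := by ring
  exact_mod_cast h10

end

end Pool.Agent.H.MP_0a1b52_lc
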