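import Pool.Agent.H.MP_8a52c3_lc.Roles2
import Pool.Agent.H.MP_8a52c3_lc.Graphs
import Pool.Agent.H.MP_0a1b52_lc.Mixed
import Pool.Agent.H.MP_0a1b52_lc.Defs

/-!
# Small graphs on the lines of an affine plane
-/

set_option autoImplicit false

open Finset

namespace Pool.Agent.H.MP_0a1b52_lc

open Pool.Agent.H.MP_8a52c3_lc

section

variable {k b p : ℕ} [Fact p.Prime]

/-- the columns are embedded in the field -/
def xi (z : Fin k × Fin b) : ZMod p := ((finProdFinEquiv z).val : ZMod p)

theorem xi_inj (hkb : k * b ≤ p) : Function.Injective (xi (k := k) (b := b) (p := p)) := by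
  intro z z' h
  unfold xi at h
  have h1 : (finProdFinEquiv z).val < p := lt_of_lt_of_le (finProdFinEquiv z).isLt hkb
  have h2 : (finProdFinEquiv z').val < p := lt_of_lt_of_le (finProdFinEquiv z').isLt hkb
  have h3 : (finProdFinEquiv z).val = (finProdFinEquiv z').val := by
    have := congrArg ZMod.val h
    rwa [ZMod.val_natCast_of_lt h1, ZMod.val_natCast_of_lt h2] at this
  exact finProdFinEquiv.injective (Fin.ext h3)

/-- points -/
abbrev Pt (k b p : ℕ) : Type := (Fin k × Fin b) × ZMod p

/-- the numbering of the lines -/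
noncomputable def lineEquiv : ZMod p × ZMod p ≃ Fin (p * p) :=
  Fintype.equivFinOfCardEq (by rw [Fintype.card_prod, ZMod.card])

/-- slope of the line through two points -/
def slope (v w : Pt k b p) : ZMod p := (v.2 - w.2) / (xi v.1 - xi w.1)

/-- the line through two points -/
noncomputable def ln (v w : Pt k b p) : Fin (p * p) :=
  lineEquiv (slope v w, v.2 - slope v w * xi v.1)

/-- the point `v` lies on the line with slope `a` and intercept `c` -/
def OnLine (a c : ZMod p) (v : Pt k b p) : Prop := v.2 = a * xi v.1 + c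

theorem ln_eq (hkb : k * b ≤ p) {a c : ZMod p} {v w : Pt k b p} (hv : OnLine a c v)
    (hw : OnLine a c w) (hne : v.1 ≠ w.1) : ln v w = lineEquiv (a, c) := by
  have hx : (xi v.1 : ZMod p) - xi w.1 ≠ 0 := sub_ne_zero.2 (fun h => hne (xi_inj hkb h))
  have hs : slope v w = a := by
    unfold slope
    rw [hv, hw, div_eq_iff hx]
    ring
  unfold ln
  rw [hs, hv]
  congr 2
  ring

theorem onLine_left (v w : Pt k b p) : OnLine (slope v w) (v.2 - slope v w * xi v.1) v := by
  unfold OnLine
  ring

theorem onLine_right (hkb : k * b ≤ p) (v w : Pt k b p) (hne : v.1 ≠ w.1) :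
    OnLine (slope v w) (v.2 - slope v w * xi v.1) w := by
  have hx : (xi v.1 : ZMod p) - xi w.1 ≠ 0 := sub_ne_zero.2 (fun h => hne (xi_inj hkb h))
  unfold OnLine slope
  field_simp
  ring

theorem ln_symm (hkb : k * b ≤ p) (v w : Pt k b p) (hne : v.1 ≠ w.1) : ln v w = ln w v :=
  (ln_eq hkb (onLine_right hkb w v hne.symm) (onLine_left w v) hne)

theorem ln_three (hkb : k * b ≤ p) (v w w' : Pt k b p) (h1 : v.1 ≠ w.1) (h2 : v.1 ≠ w'.1)
    (h3 : w.1 ≠ w'.1) (h : ln v w = ln v w') : ln w w' = ln v w := by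
  have e : (slope v w, v.2 - slope v w * xi v.1) = (slope v w', v.2 - slope v w' * xi v.1) :=
    lineEquiv.injective h
  have hw := onLine_right hkb v w h1
  have hw' := onLine_right hkb v w' h2
  obtain ⟨e1, e2⟩ := Prod.mk.inj e
  rw [← e2, ← e1] at hw'
  exact ln_eq hkb hw hw' h3

/-- the numbering of the points -/
noncomputable def ptEquiv : Pt k b p ≃ Fin (k * b * p) :=
  Fintype.equivFinOfCardEq (by
    rw [Fintype.card_prod, Fintype.card_prod, Fintype.card_fin, Fintype.card_fin, ZMod.card])

variable {N : ℕ}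

/-- the vertex of a point -/
noncomputable def ptV (hN : k * b * p ≤ N) (x : Pt k b p) : Fin N :=
  ⟨(ptEquiv x).val, lt_of_lt_of_le (ptEquiv x).isLt hN⟩

theorem ptV_inj (hN : k * b * p ≤ N) : Function.Injective (ptV (k := k) (b := b) (p := p) hN) := by
  intro x y h
  have h1 := Fin.mk.inj h
  exact ptEquiv.injective (Fin.ext h1)

/-- the point of a vertex -/
noncomputable def vPt (v : Fin N) (h : v.val < k * b * p) : Pt k b p := ptEquiv.symm ⟨v.val, h⟩

theorem vPt_ptV (hN : k * b * p ≤ N) (x : Pt k b p) (h : (ptV hN x).val < k * b * p) :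
    vPt (ptV hN x) h = x := ptEquiv.symm_apply_apply x

theorem ptV_vPt (hN : k * b * p ≤ N) (v : Fin N) (h : v.val < k * b * p) :
    ptV hN (vPt v h) = v := by
  unfold ptV vPt
  ext
  simp

theorem ptV_lt (hN : k * b * p ≤ N) (x : Pt k b p) : (ptV hN x).val < k * b * p :=
  (ptEquiv x).isLt

/-- the `m` vertices after the points are joined to all vertices -/
def IsUniv (k b p m : ℕ) (v : Fin N) : Prop := k * b * p ≤ v.val ∧ v.val < k * b * p + m

open Classical in
/-- the roles of the edges -/
noncomputable def lineRole (k b p m : ℕ) [Fact p.Prime] (w : Pairs N) : Role (p * p) k b :=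
  if IsUniv k b p m w.1.1 ∨ IsUniv k b p m w.1.2 then .const true
  else if h : w.1.1.val < k * b * p ∧ w.1.2.val < k * b * p then
    (if (vPt (p := p) w.1.1 h.1).1 = (vPt (p := p) w.1.2 h.2).1 then .const false
      else .edge (ln (vPt w.1.1 h.1) (vPt w.1.2 h.2)) (vPt (p := p) w.1.1 h.1).1
        (vPt (p := p) w.1.2 h.2).1)
  else .const false

theorem lineRole_ne (m : ℕ) (w : Pairs N) (j : Fin (p * p)) (x y : Fin k × Fin b)
    (h : lineRole k b p m w = .edge j x y) : x ≠ y := by
  unfold lineRole at h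
  split_ifs at h with h1 h2 h3
  rw [Role.edge.injEq] at h
  obtain ⟨-, rfl, rfl⟩ := h
  exact h3

theorem branch_big (hkb : k * b ≤ p) (m : ℕ) (hN : k * b * p + m ≤ N) {q : ℕ} (j : Fin (p * p))
    (u : Fin (p * p) → Fin k × Fin b → Fin q) (a : Fin k → Fin b) :
    BigClique (k + m) (branchIn (lineRole (N := N) k b p m) j u a) := by
  classical
  have hN' : k * b * p ≤ N := by omega
  obtain ⟨⟨α, β⟩, hj⟩ := lineEquiv.surjective j
  let P : Fin k → Pt k b p := fun i => ((i, a i), α * xi (i, a i) + β)
  have hP : ∀ i, OnLine α β (P i) := fun i => rfl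
  have hPinj : Function.Injective (fun i => ptV hN' (P i)) := by
    intro i i' h
    have := ptV_inj hN' h
    exact (Prod.mk.inj (Prod.mk.inj this).1).1
  let U : Fin m → Fin N := fun i => ⟨k * b * p + i.val, by omega⟩
  have hUinj : Function.Injective U := by
    intro i i' h
    have := Fin.mk.inj h
    exact Fin.ext (by omega)
  refine ⟨univ.image (fun i => ptV hN' (P i)) ∪ univ.image U, ?_, ?_⟩
  · rw [Finset.card_union_of_disjoint, Finset.card_image_of_injective _ hPinj,
      Finset.card_image_of_injective _ hUinj, Finset.card_univ, Finset.card_univ,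
      Fintype.card_fin, Fintype.card_fin]
    rw [Finset.disjoint_left]
    intro v hv hv'
    obtain ⟨i, -, rfl⟩ := Finset.mem_image.1 hv
    obtain ⟨i', -, h⟩ := Finset.mem_image.1 hv'
    have h1 := ptV_lt hN' (P i)
    rw [← h] at h1
    simp only [U] at h1
    omega
  · intro w hw1 hw2
    have hcase : ∀ v : Fin N, v ∈ univ.image (fun i => ptV hN' (P i)) ∪ univ.image U →
        IsUniv k b p m v ∨ ∃ i, ptV hN' (P i) = v := by
      intro v hv
      rcases Finset.mem_union.1 hv with hv | hv
      · obtain ⟨i, -, h⟩ := Finset.mem_image.1 hv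
        exact Or.inr ⟨i, h⟩
      · obtain ⟨i, -, h⟩ := Finset.mem_image.1 hv
        left
        rw [← h]
        exact ⟨by simp only [U]; omega, by simp only [U]; omega⟩
    unfold branchIn fill
    by_cases hu : IsUniv k b p m w.1.1 ∨ IsUniv k b p m w.1.2
    · have : lineRole k b p m w = .const true := by unfold lineRole; rw [if_pos hu]
      rw [this]
    · have hu' := not_or.1 hu
      obtain ⟨i1, h1⟩ := (hcase _ hw1).resolve_left hu'.1
      obtain ⟨i2, h2⟩ := (hcase _ hw2).resolve_left hu'.2
      have l1 : w.1.1.val < k * b * p := by rw [← h1]; exact ptV_lt _ _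
      have l2 : w.1.2.val < k * b * p := by rw [← h2]; exact ptV_lt _ _
      have e1 : vPt w.1.1 l1 = P i1 := by
        apply ptV_inj hN'
        rw [ptV_vPt, h1]
      have e2 : vPt w.1.2 l2 = P i2 := by
        apply ptV_inj hN'
        rw [ptV_vPt, h2]
      have hine : i1 ≠ i2 := by
        intro h
        rw [h] at h1
        have := w.2
        rw [← h1, h2] at this
        exact lt_irrefl _ this
      have hcol : (P i1).1 ≠ (P i2).1 := by
        intro h
        exact hine (Prod.mk.inj h).1
      have : lineRole k b p m w = .edge j (P i1).1 (P i2).1 := by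
        unfold lineRole
        rw [if_neg hu, dif_pos ⟨l1, l2⟩, e1, e2, if_neg hcol, ln_eq hkb (hP i1) (hP i2) hcol, hj]
      rw [this]
      simp only
      rw [if_neg (lt_irrefl _)]
      simp [P]

theorem chain_role (m : ℕ) {q : ℕ} (j : ℕ) (u : Fin (p * p) → Fin k × Fin b → Fin q)
    (w : Pairs N) (h1 : ¬ IsUniv k b p m w.1.1) (h2 : ¬ IsUniv k b p m w.1.2)
    (h : chainIn (lineRole (N := N) k b p m) j u w = true) :
    ∃ (l1 : w.1.1.val < k * b * p) (l2 : w.1.2.val < k * b * p),
      (vPt (p := p) w.1.1 l1).1 ≠ (vPt (p := p) w.1.2 l2).1 ∧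
      u (ln (vPt w.1.1 l1) (vPt w.1.2 l2)) (vPt (p := p) w.1.1 l1).1 ≠
        u (ln (vPt w.1.1 l1) (vPt w.1.2 l2)) (vPt (p := p) w.1.2 l2).1 := by
  unfold chainIn fill at h
  by_cases hl : w.1.1.val < k * b * p ∧ w.1.2.val < k * b * p
  · by_cases hc : (vPt (p := p) w.1.1 hl.1).1 = (vPt (p := p) w.1.2 hl.2).1
    · have : lineRole k b p m w = .const false := by
        unfold lineRole
        rw [if_neg (not_or.2 ⟨h1, h2⟩), dif_pos hl, if_pos hc]
      rw [this] at h
      exact absurd h Bool.false_ne_true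
    · have : lineRole k b p m w = .edge (ln (vPt w.1.1 hl.1) (vPt w.1.2 hl.2))
          (vPt (p := p) w.1.1 hl.1).1 (vPt (p := p) w.1.2 hl.2).1 := by
        unfold lineRole
        rw [if_neg (not_or.2 ⟨h1, h2⟩), dif_pos hl, if_neg hc]
      rw [this] at h
      simp only at h
      refine ⟨hl.1, hl.2, hc, ?_⟩
      split_ifs at h with h3
      exact of_decide_eq_true h
  · have : lineRole k b p m w = .const false := by
      unfold lineRole
      rw [if_neg (not_or.2 ⟨h1, h2⟩), dif_neg hl]
    rw [this] at h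
    exact absurd h Bool.false_ne_true

theorem chain_big (hkb : k * b ≤ p) (hk : 2 ≤ k) (m : ℕ) (hN : k * b * p + m ≤ N) {q : ℕ}
    (j : ℕ) (u : Fin (p * p) → Fin k × Fin b → Fin q)
    (h : BigClique (k + m) (chainIn (lineRole (N := N) k b p m) j u)) :
    u ∈ badSet (Pt := Pt k b p) Prod.fst ln k := by
  classical
  have hN' : k * b * p ≤ N := by omega
  obtain ⟨c, hc, hcl⟩ := h
  -- pairs of vertices of the clique that are not universal
  have hadj : ∀ v w : Fin N, v ∈ c → w ∈ c → v ≠ w → ¬ IsUniv k b p m v →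
      ¬ IsUniv k b p m w → ∃ (l1 : v.val < k * b * p) (l2 : w.val < k * b * p),
      (vPt (p := p) v l1).1 ≠ (vPt (p := p) w l2).1 ∧
      u (ln (vPt v l1) (vPt w l2)) (vPt (p := p) v l1).1 ≠
        u (ln (vPt v l1) (vPt w l2)) (vPt (p := p) w l2).1 := by
    intro v w hv hw hne hnv hnw
    rcases lt_or_gt_of_ne hne with hlt | hlt
    · exact chain_role m j u ⟨(v, w), hlt⟩ hnv hnw (hcl _ hv hw)
    · obtain ⟨l2, l1, h1, h2⟩ := chain_role m j u ⟨(w, v), hlt⟩ hnw hnv (hcl _ hw hv)
      refine ⟨l1, l2, h1.symm, ?_⟩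
      rw [ln_symm hkb _ _ h1.symm]
      exact h2.symm
  -- no vertex of the clique is isolated
  let U : Finset (Fin N) := univ.image (fun i : Fin m => (⟨k * b * p + i.val, by omega⟩ : Fin N))
  have hUcard : U.card ≤ m := by
    calc U.card ≤ (univ : Finset (Fin m)).card := Finset.card_image_le
      _ = m := by rw [Finset.card_univ, Fintype.card_fin]
  have hUmem : ∀ v : Fin N, IsUniv k b p m v → v ∈ U := by
    intro v hv
    refine Finset.mem_image.2 ⟨⟨v.val - k * b * p, ?_⟩, Finset.mem_univ _, ?_⟩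
    · have := hv.1
      have := hv.2
      omega
    · apply Fin.ext
      have := hv.1
      simp only
      omega
  have hnoiso : ∀ z ∈ c, z.val < k * b * p + m := by
    intro z hz
    by_contra hcon
    push Not at hcon
    have hznu : ¬ IsUniv k b p m z := fun h => by have := h.2; omega
    have hsub : c ⊆ insert z U := by
      intro v hv
      by_cases hvz : v = z
      · rw [hvz]; exact Finset.mem_insert_self _ _
      · by_cases hvu : IsUniv k b p m v
        · exact Finset.mem_insert_of_mem (hUmem v hvu)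
        · obtain ⟨-, l2, -⟩ := hadj v z hv hz hvz hvu hznu
          omega
    have h1 := (Finset.card_le_card hsub).trans (Finset.card_insert_le _ _)
    omega
  let A' : Finset (Pt k b p) := univ.filter (fun x => ptV hN' x ∈ c)
  have hsub : c ⊆ A'.image (ptV hN') ∪ U := by
    intro v hv
    by_cases hvl : v.val < k * b * p
    · refine Finset.mem_union_left _ (Finset.mem_image.2 ⟨vPt v hvl, ?_, ptV_vPt hN' v hvl⟩)
      refine Finset.mem_filter.2 ⟨Finset.mem_univ _, ?_⟩
      rw [ptV_vPt]
      exact hv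
    · exact Finset.mem_union_right _ (hUmem v ⟨by omega, hnoiso v hv⟩)
  have hA' : k ≤ A'.card := by
    have h1 := (Finset.card_le_card hsub).trans (Finset.card_union_le _ _)
    have h2 : (A'.image (ptV hN')).card ≤ A'.card := Finset.card_image_le
    omega
  obtain ⟨A, hAsub, hAcard⟩ := Finset.exists_subset_card_eq hA'
  refine Finset.mem_filter.2 ⟨Finset.mem_univ _, A, hAcard, ?_⟩
  intro x hx y hy hxy
  have hx' := (Finset.mem_filter.1 (hAsub hx)).2
  have hy' := (Finset.mem_filter.1 (hAsub hy)).2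
  have hne : ptV hN' x ≠ ptV hN' y := fun h => hxy (ptV_inj hN' h)
  have hnu : ∀ z : Pt k b p, ¬ IsUniv k b p m (ptV hN' z) := by
    intro z hz
    have := ptV_lt hN' z
    have := hz.1
    omega
  obtain ⟨l1, l2, h1, h2⟩ := hadj _ _ hx' hy' hne (hnu x) (hnu y)
  rw [vPt_ptV, vPt_ptV] at h1
  rw [vPt_ptV, vPt_ptV] at h2
  exact ⟨h1, h2⟩

end

end Pool.Agent.H.MP_0a1b52_lc
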